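import Pool.Agent.H398R3.NCM.PD

/-! Positive definite sequences and sums in a C*-algebra. -/

set_option autoImplicit false

open Finset

namespace Pool.Agent.E8helper68.QF

open Pool.Agent.Helper188.NCM Pool.Agent.H398R3.NCM

variable {U : Type} [CStarAlgebra U]

/-- positive definite sequences -/
def PDef (g : ℤ → ℂ) : Prop := ∀ (M : ℕ) (x : ℕ → ℂ),
  0 ≤ (∑ n ∈ range M, ∑ m ∈ range M, x n * star (x m) * g ((n : ℤ) - m)).re ∧
  (∑ n ∈ range M, ∑ m ∈ range M, x n * star (x m) * g ((n : ℤ) - m)).im = 0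

theorem pd_bound {g : ℤ → ℂ} (hg : PDef g) (N : ℕ) (T : ℕ → U) {B : ℝ}
    (hB : ∀ θ : ℝ, ‖∑ n ∈ range N, ee (θ * n) • T n‖ ≤ B) :
    ‖∑ n ∈ range N, ∑ m ∈ range N, g ((m : ℤ) - n) • (star (T n) * T m)‖ ≤ B ^ 2 * (g 0).re := by
  have hB0 : 0 ≤ B := (norm_nonneg _).trans (hB 0)
  set S : U := ∑ n ∈ range N, ∑ m ∈ range N, g ((m : ℤ) - n) • (star (T n) * T m) with hS
  set S' : U := ∑ n ∈ range N, ∑ m ∈ range N,
    (g ((m : ℤ) - n) * ((|(m : ℤ) - n| : ℤ) : ℂ)) • (star (T n) * T m) with hS'
  have key : ∀ M : ℕ, N ≤ M → 0 < M → (M : ℝ) * ‖S‖ - ‖S'‖ ≤ M * (B ^ 2 * (g 0).re) := by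
    intro M hNM hM
    set L : ℕ := M + N with hL
    have hL0 : 0 < L := by omega
    set P : ℕ → U := fun j => ∑ n ∈ range N, ee (-((j : ℝ) / L) * n) • T n with hP
    set W : ℕ → ℂ := fun j => ∑ k ∈ range M, ∑ l ∈ range M,
      ee ((j : ℝ) / L * k) * star (ee ((j : ℝ) / L * l)) * g ((k : ℤ) - l) with hW
    have hW1 : ∀ j, 0 ≤ (W j).re ∧ (W j).im = 0 := fun j =>
      hg M (fun k => ee ((j : ℝ) / L * k))
    have hWn : ∀ j, ‖W j‖ = (W j).re := by
      intro j
      have e : W j = (((W j).re : ℝ) : ℂ) := by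
        apply Complex.ext
        · simp
        · simp [(hW1 j).2]
      conv_lhs => rw [e]
      rw [Complex.norm_real, Real.norm_of_nonneg (hW1 j).1]
    have hWsum : ∑ j ∈ range L, W j = (L : ℂ) * M * g 0 := by
      simp only [hW]
      rw [sum_comm]
      have : ∀ k ∈ range M, ∑ j ∈ range L, ∑ l ∈ range M,
          ee ((j : ℝ) / L * k) * star (ee ((j : ℝ) / L * l)) * g ((k : ℤ) - l) =
          (L : ℂ) * g 0 := by
        intro k hk
        rw [sum_comm]
        have h1 : ∀ l ∈ range M, ∑ j ∈ range L,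
            ee ((j : ℝ) / L * k) * star (ee ((j : ℝ) / L * l)) * g ((k : ℤ) - l) =
            if l = k then (L : ℂ) * g 0 else 0 := by
          intro l hl
          rw [mem_range] at hk hl
          rw [← sum_mul]
          have h2 : ∀ j ∈ range L, ee ((j : ℝ) / L * k) * star (ee ((j : ℝ) / L * l)) =
              ee ((j : ℝ) / L * ((k : ℤ) - l : ℤ)) := by
            intro j _
            rw [star_ee, ← ee_add]
            congr 1
            push_cast
            ring
          rw [sum_congr rfl h2, E_sum L hL0 _ (by rw [abs_lt]; constructor <;> omega)]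
          by_cases hlk : l = k
          · subst hlk; simp
          · rw [if_neg (by omega), if_neg hlk, zero_mul]
        rw [sum_congr rfl h1, sum_ite_eq' (range M) k, if_pos hk]
      rw [sum_congr rfl this]
      simp
      ring
    have hmain : ∑ j ∈ range L, W j • (star (P j) * P j) =
        (L : ℂ) • ((M : ℂ) • S - S') := by
      have h1 : ∀ j ∈ range L, W j • (star (P j) * P j) =
          ∑ n ∈ range N, ∑ m ∈ range N, (∑ k ∈ range M, ∑ l ∈ range M,
            g ((k : ℤ) - l) *
              ee ((j : ℝ) / L * (((k : ℤ) - l) - ((m : ℤ) - n) : ℤ))) • (star (T n) * T m) := by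
        intro j _
        simp only [hP, hW]
        rw [star_sum, sum_mul_sum, smul_sum]
        refine sum_congr rfl fun n _ => ?_
        rw [smul_sum]
        refine sum_congr rfl fun m _ => ?_
        rw [star_smul, smul_mul_smul_comm, smul_smul]
        congr 1
        rw [sum_mul]
        refine sum_congr rfl fun k _ => ?_
        rw [sum_mul]
        refine sum_congr rfl fun l _ => ?_
        rw [star_ee, star_ee]
        have e1 : ee ((j : ℝ) / L * (((k : ℤ) - l) - ((m : ℤ) - n) : ℤ)) =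
            ee (-((j : ℝ) / L) * m) * ee (-(-((j : ℝ) / L) * n)) *
              (ee ((j : ℝ) / L * k) * ee (-((j : ℝ) / L * l))) := by
          rw [← ee_add, ← ee_add, ← ee_add]
          congr 1
          push_cast
          ring
        rw [e1]
        ring
      rw [sum_congr rfl h1, sum_comm]
      have h3 : (L : ℂ) • ((M : ℂ) • S - S') = ∑ n ∈ range N, ∑ m ∈ range N,
          ((L : ℂ) * (g ((m : ℤ) - n) * ((M : ℂ) - ((|(m : ℤ) - n| : ℤ) : ℂ)))) •
            (star (T n) * T m) := by
        rw [hS, hS', smul_sum, ← sum_sub_distrib, smul_sum]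
        refine sum_congr rfl fun n _ => ?_
        rw [smul_sum, ← sum_sub_distrib, smul_sum]
        refine sum_congr rfl fun m _ => ?_
        rw [smul_smul, ← sub_smul, smul_smul]
        congr 1
        ring
      rw [h3]
      refine sum_congr rfl fun n hn => ?_
      rw [sum_comm]
      refine sum_congr rfl fun m hm => ?_
      rw [mem_range] at hn hm
      rw [← sum_smul]
      congr 1
      rw [sum_comm]
      have h2 : ∀ k ∈ range M, ∑ j ∈ range L, ∑ l ∈ range M, g ((k : ℤ) - l) *
          ee ((j : ℝ) / L * (((k : ℤ) - l) - ((m : ℤ) - n) : ℤ)) =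
          ∑ l ∈ range M, (L : ℂ) * (g ((m : ℤ) - n)) *
            (if ((k : ℤ) - l) = (m : ℤ) - n then (1 : ℂ) else 0) := by
        intro k hk
        rw [sum_comm]
        refine sum_congr rfl fun l hl => ?_
        rw [mem_range] at hk hl
        rw [← mul_sum, E_sum L hL0 _ (by rw [abs_lt]; constructor <;> omega)]
        by_cases h : ((k : ℤ) - l) = (m : ℤ) - n
        · rw [if_pos (by omega), if_pos h, h]
          ring
        · rw [if_neg (by omega), if_neg h]
          ring
      rw [sum_congr rfl h2]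
      simp only [← mul_sum]
      rw [count M _ (by rw [abs_le]; constructor <;> omega)]
      ring
    have hle : ‖∑ j ∈ range L, W j • (star (P j) * P j)‖ ≤ B ^ 2 * (∑ j ∈ range L, W j).re := by
      rw [Complex.re_sum, mul_sum]
      refine norm_sum_le_of_le _ fun j _ => ?_
      rw [norm_smul, hWn, CStarRing.norm_star_mul_self]
      have h2 : ‖P j‖ ≤ B := hB _
      have h3 : ‖P j‖ * ‖P j‖ ≤ B ^ 2 := by
        have := norm_nonneg (P j)
        nlinarith
      calc (W j).re * (‖P j‖ * ‖P j‖) ≤ (W j).re * B ^ 2 :=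
            mul_le_mul_of_nonneg_left h3 (hW1 j).1
        _ = _ := by ring
    rw [hmain, hWsum] at hle
    have h5 : ((L : ℂ) * M * g 0).re = (L : ℝ) * (M * (g 0).re) := by
      rw [mul_assoc, ← Complex.ofReal_natCast L, Complex.re_ofReal_mul,
        ← Complex.ofReal_natCast M, Complex.re_ofReal_mul]
    rw [h5, norm_smul, Complex.norm_natCast] at hle
    have hLp : (0 : ℝ) < L := by exact_mod_cast hL0
    have h6 : (L : ℝ) * ‖(M : ℂ) • S - S'‖ ≤ L * (M * (B ^ 2 * (g 0).re)) := by
      refine hle.trans (le_of_eq ?_)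
      ring
    have h7 := le_of_mul_le_mul_left h6 hLp
    have h8 : ‖(M : ℂ) • S‖ - ‖S'‖ ≤ ‖(M : ℂ) • S - S'‖ := norm_sub_norm_le _ _
    rw [norm_smul, Complex.norm_natCast] at h8
    exact h8.trans h7
  by_contra hcon
  push Not at hcon
  obtain ⟨M, hM⟩ := exists_nat_gt (‖S'‖ / (‖S‖ - B ^ 2 * (g 0).re))
  have hpos : 0 < ‖S‖ - B ^ 2 * (g 0).re := by linarith
  have h1 := key (M + N + 1) (by omega) (by omega)
  rw [div_lt_iff₀ hpos] at hM
  push_cast at h1
  have hN : (0 : ℝ) ≤ N := Nat.cast_nonneg N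
  have h2 : 0 ≤ ((N : ℝ) + 1) * (‖S‖ - B ^ 2 * (g 0).re) := by positivity
  linarith

end Pool.Agent.E8helper68.QF
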