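import Pool.Agent.E8helper68.QF.Row
import Pool.Agent.E8helper68.QF.Pd

/-! Multiplication by one creation operator. -/

set_option autoImplicit false

open Finset

namespace Pool.Agent.E8helper68.QF

open Pool.Agent.Helper188.NCM Pool.Agent.H398R3.NCM

variable {U H ι : Type} [CStarAlgebra U] [NormedAddCommGroup H] [InnerProductSpace ℂ H]

/-- creation operators with deformed commutation relations -/
structure Rel (s : H →ₗ[ℂ] U) (K : ι → Submodule ℂ H) (z : ι → ι → U) (p : ι → U) : Prop where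
  orth : ∀ i j, i ≠ j → ∀ η ∈ K i, ∀ ξ ∈ K j, (inner ℂ η ξ : ℂ) = 0
  comm : ∀ i j, ∀ η ∈ K i, ∀ ξ ∈ K j,
    star (s η) * s ξ = s ξ * z i j * star (s η) + (inner ℂ η ξ : ℂ) • p i

theorem gs {K : ι → Submodule ℂ H}
    (horth : ∀ i j, i ≠ j → ∀ η ∈ K i, ∀ ξ ∈ K j, (inner ℂ η ξ : ℂ) = 0)
    (i : ℕ → ι) (ξ : ℕ → H) (hξ : ∀ n, ξ n ∈ K (i n)) (N : ℕ) :
    ∃ E : Finset H, (∀ e ∈ E, ∃ n, e ∈ K (i n)) ∧
      (∀ e ∈ E, (inner ℂ e e : ℂ) = 1) ∧ (∀ e ∈ E, ∀ f ∈ E, e ≠ f → (inner ℂ e f : ℂ) = 0) ∧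
      ∀ n < N, ξ n = ∑ e ∈ E, (inner ℂ e (ξ n) : ℂ) • e := by
  classical
  induction N with
  | zero => exact ⟨∅, by simp, by simp, by simp, by simp⟩
  | succ N ih =>
    obtain ⟨E, h1, h2, h3, h4⟩ := ih
    set x := ξ N with hx
    set y := x - ∑ e ∈ E, (inner ℂ e x : ℂ) • e with hy
    have hyK : y ∈ K (i N) := by
      refine Submodule.sub_mem _ (hξ N) (Submodule.sum_mem _ fun e he => ?_)
      obtain ⟨n, hn⟩ := h1 e he
      by_cases h : i n = i N
      · rw [h] at hn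
        exact Submodule.smul_mem _ _ hn
      · rw [horth _ _ h e hn x (hξ N), zero_smul]
        exact Submodule.zero_mem _
    have hfy : ∀ f ∈ E, (inner ℂ f y : ℂ) = 0 := by
      intro f hf
      rw [hy, inner_sub_right, inner_sum, sum_eq_single f]
      · rw [inner_smul_right, h2 f hf, mul_one, sub_self]
      · intro e he hef
        rw [inner_smul_right, h3 f hf e he hef.symm, mul_zero]
      · intro hf'
        exact absurd hf hf'
    have hyf : ∀ f ∈ E, (inner ℂ y f : ℂ) = 0 := by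
      intro f hf
      rw [← inner_conj_symm, hfy f hf, map_zero]
    by_cases hy0 : y = 0
    · refine ⟨E, h1, h2, h3, fun n hn => ?_⟩
      rcases Nat.lt_succ_iff_lt_or_eq.1 hn with hn | rfl
      · exact h4 n hn
      · rw [← hx, ← sub_eq_zero]
        exact hy0
    · have hn0 : (‖y‖ : ℂ) ≠ 0 := by
        have := norm_ne_zero_iff.2 hy0
        exact_mod_cast this
      have hyy : (inner ℂ y y : ℂ) = (‖y‖ : ℂ) * ‖y‖ := by
        rw [inner_self_eq_norm_sq_to_K, sq]
        rfl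
      set e' : H := ((‖y‖ : ℂ)⁻¹) • y with he'
      have hcj : (starRingEnd ℂ) ((‖y‖ : ℂ)⁻¹) = (‖y‖ : ℂ)⁻¹ := by
        rw [map_inv₀, Complex.conj_ofReal]
      have he1 : (inner ℂ e' e' : ℂ) = 1 := by
        rw [he', inner_smul_left, inner_smul_right, hyy, hcj]
        field_simp
      have he2 : ∀ f ∈ E, (inner ℂ e' f : ℂ) = 0 := by
        intro f hf
        rw [he', inner_smul_left, hyf f hf, mul_zero]
      have he3 : ∀ f ∈ E, (inner ℂ f e' : ℂ) = 0 := by
        intro f hf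
        rw [he', inner_smul_right, hfy f hf, mul_zero]
      have he4 : e' ∉ E := by
        intro h
        have := he2 e' h
        rw [he1] at this
        exact one_ne_zero this
      refine ⟨insert e' E, ?_, ?_, ?_, ?_⟩
      · intro e he
        rcases mem_insert.1 he with rfl | he
        · exact ⟨N, Submodule.smul_mem _ _ hyK⟩
        · exact h1 e he
      · intro e he
        rcases mem_insert.1 he with rfl | he
        · exact he1
        · exact h2 e he
      · intro e he f hf hef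
        rcases mem_insert.1 he with h5 | h5
        · rcases mem_insert.1 hf with h6 | h6
          · exact absurd (h5.trans h6.symm) hef
          · rw [h5]; exact he2 f h6
        · rcases mem_insert.1 hf with h6 | h6
          · rw [h6]; exact he3 e h5
          · exact h3 e h5 f h6 hef
      · intro n hn
        rw [sum_insert he4]
        rcases Nat.lt_succ_iff_lt_or_eq.1 hn with hn | rfl
        · have : (inner ℂ e' (ξ n) : ℂ) = 0 := by
            rw [h4 n hn, inner_sum]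
            refine sum_eq_zero fun e he => ?_
            rw [inner_smul_right, he2 e he, mul_zero]
          rw [this, zero_smul, zero_add]
          exact h4 n hn
        · rw [← hx]
          have hxe : x = y + ∑ e ∈ E, (inner ℂ e x : ℂ) • e := by rw [hy]; abel
          have h5 : (inner ℂ e' x : ℂ) = ‖y‖ := by
            have h6 : (inner ℂ y x : ℂ) = (‖y‖ : ℂ) * ‖y‖ := by
              conv_lhs => rw [hxe]
              rw [inner_add_right, hyy, inner_sum, sum_eq_zero, add_zero]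
              intro e he
              rw [inner_smul_right, hyf e he, mul_zero]
            rw [he', inner_smul_left, h6, hcj]
            field_simp
          rw [h5, he', smul_smul, mul_inv_cancel₀ hn0, one_smul]
          exact hxe

theorem letter_bound {s : H →ₗ[ℂ] U} {K : ι → Submodule ℂ H} {z : ι → ι → U} {p : ι → U}
    (h : Rel s K z p) {r M : ℝ} (hr : r < 1) (i : ℕ → ι)
    (hq : ∀ m n, ‖z (i m) (i n)‖ ≤ r ∧ ‖p (i n)‖ ≤ M) (ξ : ℕ → H)
    (hξ : ∀ n, ξ n ∈ K (i n)) (N : ℕ) (T : ℕ → U) :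
    ‖∑ n ∈ range N, s (ξ n) * T n‖ ^ 2 ≤ M / (1 - r) *
      ‖∑ n ∈ range N, ∑ m ∈ range N, (inner ℂ (ξ n) (ξ m) : ℂ) • (star (T n) * T m)‖ := by
  classical
  obtain ⟨E, h1, h2, h3, h4⟩ := gs h.orth i ξ hξ N
  have hj : ∀ e : H, ∃ n, e ∈ E → e ∈ K (i n) := by
    intro e
    by_cases he : e ∈ E
    · obtain ⟨n, hn⟩ := h1 e he
      exact ⟨n, fun _ => hn⟩
    · exact ⟨0, fun h => absurd h he⟩
  choose j hj using hj
  have hM : 0 ≤ M := (norm_nonneg _).trans (hq 0 0).2
  have hrow := row_bound E (fun e => s e) (fun e f => z (i (j e)) (i (j f)))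
    (fun e => p (i (j e))) hr hM (fun e _ f _ => (hq _ _).1) (fun e _ => (hq 0 _).2) (by
      intro e he f hf
      rw [h.comm _ _ e (hj e he) f (hj f hf)]
      congr 2
      split_ifs with hef
      · subst hef; exact h2 e he
      · exact h3 e he f hf hef)
  set S : H → U := fun e => ∑ n ∈ range N, (inner ℂ e (ξ n) : ℂ) • T n with hS
  have e1 : ∑ n ∈ range N, s (ξ n) * T n = ∑ e ∈ E, s e * S e := by
    have : ∀ n ∈ range N, s (ξ n) * T n = ∑ e ∈ E, (inner ℂ e (ξ n) : ℂ) • (s e * T n) := by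
      intro n hn
      rw [mem_range] at hn
      conv_lhs => rw [h4 n hn]
      rw [map_sum, sum_mul]
      refine sum_congr rfl fun e _ => ?_
      rw [map_smul, smul_mul_assoc]
    rw [sum_congr rfl this, sum_comm]
    refine sum_congr rfl fun e _ => ?_
    rw [hS, mul_sum]
    refine sum_congr rfl fun n _ => ?_
    rw [mul_smul_comm]
  have e2 : ∑ e ∈ E, star (S e) * S e =
      ∑ n ∈ range N, ∑ m ∈ range N, (inner ℂ (ξ n) (ξ m) : ℂ) • (star (T n) * T m) := by
    have h5 : ∀ e ∈ E, star (S e) * S e = ∑ n ∈ range N, ∑ m ∈ range N,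
        (star (inner ℂ e (ξ n) : ℂ) * inner ℂ e (ξ m)) • (star (T n) * T m) := by
      intro e _
      rw [hS]
      simp only
      rw [star_sum, sum_mul_sum]
      refine sum_congr rfl fun n _ => sum_congr rfl fun m _ => ?_
      rw [star_smul, smul_mul_smul_comm]
    rw [sum_congr rfl h5, sum_comm]
    refine sum_congr rfl fun n hn => ?_
    rw [sum_comm]
    refine sum_congr rfl fun m _ => ?_
    rw [← sum_smul]
    congr 1
    rw [mem_range] at hn
    conv_rhs => rw [h4 n hn]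
    rw [sum_inner]
    refine sum_congr rfl fun e _ => ?_
    rw [inner_smul_left]
    rfl
  rw [e1, ← e2]
  refine (cs_col E (fun e => s e) S).trans ?_
  exact mul_le_mul_of_nonneg_right hrow (norm_nonneg _)

/-- autocorrelation sequence -/
noncomputable def ga (ξ : ℕ → H) (k : ℤ) : ℂ :=
  if 0 ≤ k then inner ℂ (ξ 0) (ξ k.toNat) else inner ℂ (ξ (-k).toNat) (ξ 0)

theorem ga_eq {ξ : ℕ → H} (h : ∀ m n, (inner ℂ (ξ (m + 1)) (ξ (n + 1)) : ℂ) = inner ℂ (ξ m) (ξ n))
    (m n : ℕ) : (inner ℂ (ξ m) (ξ n) : ℂ) = ga ξ ((n : ℤ) - m) := by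
  have hit : ∀ k m n : ℕ, (inner ℂ (ξ (m + k)) (ξ (n + k)) : ℂ) = inner ℂ (ξ m) (ξ n) := by
    intro k
    induction k with
    | zero => intro m n; rfl
    | succ k ih => intro m n; rw [← add_assoc, ← add_assoc, h, ih]
  rcases le_or_gt m n with hmn | hmn
  · obtain ⟨d, rfl⟩ := Nat.exists_eq_add_of_le hmn
    have hd : (((m + d : ℕ) : ℤ) - m).toNat = d := by omega
    rw [ga, if_pos (by omega), hd]
    have := hit m 0 d
    rw [zero_add] at this
    rw [← this, add_comm d m]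
  · obtain ⟨d, rfl⟩ := Nat.exists_eq_add_of_lt hmn
    have hd : (-((n : ℤ) - ((n + d + 1 : ℕ) : ℤ))).toNat = d + 1 := by omega
    rw [ga, if_neg (by omega), hd]
    have := hit n (d + 1) 0
    rw [zero_add] at this
    rw [← this]
    congr 2
    omega

theorem ga_pd {ξ : ℕ → H}
    (h : ∀ m n, (inner ℂ (ξ (m + 1)) (ξ (n + 1)) : ℂ) = inner ℂ (ξ m) (ξ n)) : PDef (ga ξ) := by
  intro M x
  have e : ∑ n ∈ range M, ∑ m ∈ range M, x n * star (x m) * ga ξ ((n : ℤ) - m) =
      ((‖∑ n ∈ range M, x n • ξ n‖ ^ 2 : ℝ) : ℂ) := by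
    have h1 : (inner ℂ (∑ m ∈ range M, x m • ξ m) (∑ n ∈ range M, x n • ξ n) : ℂ) =
        ((‖∑ n ∈ range M, x n • ξ n‖ ^ 2 : ℝ) : ℂ) := by
      rw [inner_self_eq_norm_sq_to_K]
      push_cast
      rfl
    rw [← h1, inner_sum]
    refine sum_congr rfl fun n _ => ?_
    rw [sum_inner]
    refine sum_congr rfl fun m _ => ?_
    rw [inner_smul_left, inner_smul_right, ga_eq h]
    simp only [Complex.star_def]
    ring
  rw [e]
  exact ⟨by rw [Complex.ofReal_re]; positivity, Complex.ofReal_im _⟩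

theorem iter_hom (γ : U →⋆ₐ[ℂ] U) (n : ℕ) :
    (∀ x y : U, (⇑γ)^[n] (x * y) = (⇑γ)^[n] x * (⇑γ)^[n] y) ∧
    (∀ x : U, (⇑γ)^[n] (star x) = star ((⇑γ)^[n] x)) ∧
    (∀ x y : U, (⇑γ)^[n] (x + y) = (⇑γ)^[n] x + (⇑γ)^[n] y) ∧
    (∀ (c : ℂ) (x : U), (⇑γ)^[n] (c • x) = c • (⇑γ)^[n] x) := by
  induction n with
  | zero => simp
  | succ n ih =>
    obtain ⟨h1, h2, h3, h4⟩ := ih
    refine ⟨fun x y => ?_, fun x => ?_, fun x y => ?_, fun c x => ?_⟩
    · simp only [Function.iterate_succ_apply', h1, map_mul]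
    · simp only [Function.iterate_succ_apply', h2, map_star]
    · simp only [Function.iterate_succ_apply', h3, map_add]
    · simp only [Function.iterate_succ_apply', h4, map_smul]

/-- the bound for the sums twisted by all rotations -/
def Bd (γ : U → U) (N : ℕ) (c : ℕ → ℂ) (x : U) (B : ℝ) : Prop :=
  ∀ θ : ℝ, ‖∑ n ∈ range N, (c n * ee (θ * n)) • γ^[n] x‖ ≤ B

theorem bd_left {s : H →ₗ[ℂ] U} {K : ι → Submodule ℂ H} {z : ι → ι → U} {p : ι → U}
    (h : Rel s K z p) (γ : U →⋆ₐ[ℂ] U) (π : ι → ι) (V : H →ₗᵢ[ℂ] H)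
    (hV : ∀ i, ∀ ξ ∈ K i, V ξ ∈ K (π i) ∧ γ (s ξ) = s (V ξ)) {i : ι} {r M : ℝ} (hr : r < 1)
    (hq : ∀ m n : ℕ, ‖z (π^[m] i) (π^[n] i)‖ ≤ r ∧ ‖p (π^[n] i)‖ ≤ M) {ξ : H} (hξ : ξ ∈ K i) :
    ∃ C : ℝ, 0 ≤ C ∧ ∀ (x : U) (N : ℕ) (c : ℕ → ℂ) (B : ℝ), Bd γ N c x B →
      Bd γ N c (s ξ * x) (C * B) := by
  have hM : 0 ≤ M := (norm_nonneg _).trans (hq 0 0).2
  set X : ℕ → H := fun n => V^[n] ξ with hX
  have hXK : ∀ n, X n ∈ K (π^[n] i) := by
    intro n
    induction n with
    | zero => exact hξ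
    | succ n ih =>
      rw [hX]
      simp only
      rw [Function.iterate_succ_apply', Function.iterate_succ_apply']
      exact (hV _ _ ih).1
  have hX0 : X 0 = ξ := rfl
  have hXn : ∀ n, (⇑γ)^[n] (s ξ) = s (X n) := by
    intro n
    induction n with
    | zero => rfl
    | succ n ih =>
      rw [Function.iterate_succ_apply', ih, (hV _ _ (hXK n)).2]
      simp only [hX]
      rw [Function.iterate_succ_apply']
  have hst : ∀ m n, (inner ℂ (X (m + 1)) (X (n + 1)) : ℂ) = inner ℂ (X m) (X n) := by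
    intro m n
    simp only [hX, Function.iterate_succ_apply']
    exact V.inner_map_map _ _
  have hr1 : 0 < 1 - r := by linarith
  refine ⟨Real.sqrt (M / (1 - r)) * ‖ξ‖, by positivity, fun x N c B hB θ => ?_⟩
  have hB0 : 0 ≤ B := (norm_nonneg _).trans (hB 0)
  set T : ℕ → U := fun n => (c n * ee (θ * n)) • (⇑γ)^[n] x with hT
  have e1 : ∑ n ∈ range N, (c n * ee (θ * n)) • (⇑γ)^[n] (s ξ * x) =
      ∑ n ∈ range N, s (X n) * T n := by
    refine sum_congr rfl fun n _ => ?_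
    rw [(iter_hom γ n).1, hXn, hT, mul_smul_comm]
  have h1 := letter_bound h hr (fun n => π^[n] i) (fun m n => hq m n) X hXK N T
  have e2 : ∑ n ∈ range N, ∑ m ∈ range N, (inner ℂ (X n) (X m) : ℂ) • (star (T n) * T m) =
      ∑ n ∈ range N, ∑ m ∈ range N, ga X ((m : ℤ) - n) • (star (T n) * T m) := by
    refine sum_congr rfl fun n _ => sum_congr rfl fun m _ => ?_
    rw [ga_eq hst]
  have h2 := pd_bound (ga_pd hst) N T (B := B) (by
    intro φ
    refine le_trans (le_of_eq ?_) (hB (θ + φ))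
    congr 1
    refine sum_congr rfl fun n _ => ?_
    rw [hT]
    simp only
    rw [smul_smul, add_mul, ee_add]
    congr 1
    ring)
  have h3 : (ga X 0).re = ‖ξ‖ ^ 2 := by
    rw [ga, if_pos le_rfl]
    simp only [Int.toNat_zero]
    rw [hX0, inner_self_eq_norm_sq_to_K]
    norm_cast
  rw [e2] at h1
  rw [h3] at h2
  rw [e1]
  refine le_of_sq_le_sq ?_ (by positivity)
  calc ‖∑ n ∈ range N, s (X n) * T n‖ ^ 2 ≤ M / (1 - r) * (B ^ 2 * ‖ξ‖ ^ 2) :=
        h1.trans (mul_le_mul_of_nonneg_left h2 (by positivity))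
    _ = (Real.sqrt (M / (1 - r)) * ‖ξ‖ * B) ^ 2 := by
        rw [mul_pow, mul_pow, Real.sq_sqrt (by positivity)]
        ring

end Pool.Agent.E8helper68.QF
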