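import Pool.Agent.E8helper68.QF.Wick
import Pool.Agent.TH254.FP.Main
import Pool.Agent.Helper188.NCM.Cuntz

/-! Moebius disjointness of Fock extensions. -/

set_option autoImplicit false

open Finset

namespace Pool.Agent.E8helper68.QF

open Pool.Agent.Helper188.NCM Pool.Agent.H398R3.NCM
open Pool.Agent.TH254.FP (ms UD Cls Go)

variable {U H ι : Type} [CStarAlgebra U] [NormedAddCommGroup H] [InnerProductSpace ℂ H]

theorem norm_ee (x : ℝ) : ‖ee x‖ = 1 := by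
  unfold ee
  have : (2 * Real.pi * Complex.I * x : ℂ) = ((2 * Real.pi * x : ℝ) : ℂ) * Complex.I := by
    push_cast; ring
  rw [this, Complex.norm_exp_ofReal_mul_I]

theorem ms_eq (γ : U →⋆ₐ[ℂ] U) (x : U) (N : ℕ) (θ : ℝ) :
    ms γ x N (ee θ) = ∑ n ∈ range (N + 1), (mob n * ee (θ * n)) • (⇑γ)^[n] x := by
  rw [Pool.Agent.TH254.FP.sum_range_Icc _ (by simp [mob]), ms]
  refine sum_congr rfl fun n _ => ?_
  rw [mul_comm θ n, ee_pow]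
  rfl

theorem ud_iff_bd (γ : U →⋆ₐ[ℂ] U) (x : U) : UD γ x ↔ ∀ ε : ℝ, 0 < ε → ∃ N₀ : ℕ, ∀ N ≥ N₀,
    Bd γ (N + 1) mob x (ε * N) := by
  constructor
  · intro h ε hε
    obtain ⟨N0, h0⟩ := h ε hε
    refine ⟨N0, fun N hN θ => ?_⟩
    rw [← ms_eq]
    exact h0 N hN _ (norm_ee θ)
  · intro h ε hε
    obtain ⟨N0, h0⟩ := h ε hε
    refine ⟨N0, fun N hN z hz => ?_⟩
    obtain ⟨θ, rfl⟩ := exists_ee hz
    rw [ms_eq]
    exact h0 N hN θ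

theorem ud_of_tr {γ : U →⋆ₐ[ℂ] U} {A : Set U} (hA : ∀ a ∈ A, UD γ a) {x : U} (hx : Tr γ A x) :
    UD γ x := by
  classical
  obtain ⟨F, hF, C, hC, h⟩ := hx
  rw [ud_iff_bd]
  intro ε hε
  have h1 : ∀ a : U, ∃ N₀ : ℕ, a ∈ F → ∀ N ≥ N₀, Bd γ (N + 1) mob a (ε / (C + 1) * N) := by
    intro a
    by_cases ha : a ∈ F
    · obtain ⟨N0, h0⟩ := (ud_iff_bd γ a).1 (hA a (hF a ha)) (ε / (C + 1)) (by positivity)
      exact ⟨N0, fun _ => h0⟩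
    · exact ⟨0, fun h => absurd h ha⟩
  choose n hn using h1
  refine ⟨F.sup n, fun N hN => ?_⟩
  refine (h (N + 1) mob (ε / (C + 1) * N) (by positivity) fun a ha =>
    hn a ha N ((Finset.le_sup ha).trans hN)).mono ?_
  calc C * (ε / (C + 1) * N) = (C / (C + 1)) * (ε * N) := by ring
    _ ≤ 1 * (ε * N) := by
      gcongr
      rw [div_le_one (by positivity)]
      linarith
    _ = _ := one_mul _

theorem main {s : H →ₗ[ℂ] U} {K : ι → Submodule ℂ H} {z : ι → ι → U} {p : ι → U}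
    (h : Rel s K z p) (γ : U →⋆ₐ[ℂ] U) (π : ι → ι) (V : H →ₗᵢ[ℂ] H)
    (hV : ∀ i, ∀ ξ ∈ K i, V ξ ∈ K (π i) ∧ γ (s ξ) = s (V ξ))
    (hr : ∀ i, ∃ r M : ℝ, r < 1 ∧ ∀ m n : ℕ, ‖z (π^[m] i) (π^[n] i)‖ ≤ r ∧ ‖p (π^[n] i)‖ ≤ M)
    (𝒜 : StarSubalgebra ℂ U) (hz : ∀ i j, z i j ∈ 𝒜) (hp : ∀ i, p i ∈ 𝒜)
    (hA : ∀ a ∈ 𝒜, ∀ i, ∀ ξ ∈ K i,
      a * s ξ ∈ Submodule.span ℂ {x | ∃ j, ∃ ζ ∈ K j, ∃ b ∈ 𝒜, x = s ζ * b})
    (hgen : (StarAlgebra.adjoin ℂ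
      ((𝒜 : Set U) ∪ {x | ∃ i, ∃ ξ ∈ K i, x = s ξ})).topologicalClosure = ⊤)
    (hd : (𝒜 : Set U) ⊆ closure (Submodule.span ℂ
      {x : U | UD γ x ∨ ∃ c : ℂ, ‖c‖ = 1 ∧ γ x = c • x} : Set U)) (x : U) : UD γ x := by
  have hle : ∀ x, ‖γ x‖ ≤ ‖x‖ := fun x => NonUnitalStarAlgHom.norm_apply_le γ x
  have h1 : ∀ a ∈ (𝒜 : Set U), UD γ a := by
    intro a ha
    refine UD.closed hle ?_ a (hd ha)
    rintro y (hy | ⟨c, hc, hy⟩)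
    · exact hy
    · exact (Pool.Agent.TH254.FP.UD_iff hle y).2 (Pool.Agent.TH254.FP.cls_eigen
        Pool.Agent.TH254.FP.gauge_Go Pool.Agent.TH254.FP.dv_Go hc hy)
  refine UD.closed hle (s := (StarAlgebra.adjoin ℂ
    ((𝒜 : Set U) ∪ {x | ∃ i, ∃ ξ ∈ K i, x = s ξ}) : Set U))
    (fun y hy => ud_of_tr h1 (transfer h γ π V hV hr 𝒜 hz hp hA hy)) x ?_
  have hx : x ∈ (StarAlgebra.adjoin ℂ
      ((𝒜 : Set U) ∪ {x | ∃ i, ∃ ξ ∈ K i, x = s ξ})).topologicalClosure := by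
    rw [hgen]; trivial
  exact closure_mono Submodule.subset_span hx

end Pool.Agent.E8helper68.QF
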