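import Mathlib

/-! The row bound for creation operators with deformed commutation relations. -/

set_option autoImplicit false

open Finset

namespace Pool.Agent.E8helper68.QF

variable {U : Type} [CStarAlgebra U]

section order

attribute [local instance] CStarAlgebra.spectralOrder CStarAlgebra.spectralOrderedRing

/-- Cauchy-Schwarz for rows -/
theorem cs_fintype {κ : Type} [Fintype κ] (x y : κ → U) :
    ‖∑ i, x i * star (y i)‖ ^ 2 ≤ ‖∑ i, x i * star (x i)‖ * ‖∑ i, y i * star (y i)‖ := by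
  let X : WithCStarModule U (κ → U) := WithCStarModule.equiv U (κ → U) |>.symm x
  let Y : WithCStarModule U (κ → U) := WithCStarModule.equiv U (κ → U) |>.symm y
  have h := CStarModule.norm_inner_le (A := U) (E := WithCStarModule U (κ → U)) (x := Y) (y := X)
  rw [WithCStarModule.pi_inner] at h
  have h1 : ∑ i, inner U (Y i) (X i) = ∑ i, x i * star (y i) := rfl
  have h2 : ‖X‖ ^ 2 = ‖∑ i, x i * star (x i)‖ := WithCStarModule.pi_norm_sq X
  have h3 : ‖Y‖ ^ 2 = ‖∑ i, y i * star (y i)‖ := WithCStarModule.pi_norm_sq Y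
  rw [h1] at h
  rw [← h2, ← h3]
  calc ‖∑ i, x i * star (y i)‖ ^ 2 ≤ (‖Y‖ * ‖X‖) ^ 2 := by gcongr
    _ = _ := by ring

/-- Cauchy-Schwarz for rows, over a finite set -/
theorem cs_row {κ : Type} (s : Finset κ) (x y : κ → U) :
    ‖∑ i ∈ s, x i * star (y i)‖ ^ 2 ≤
      ‖∑ i ∈ s, x i * star (x i)‖ * ‖∑ i ∈ s, y i * star (y i)‖ := by
  have h := cs_fintype (fun i : s => x i) (fun i : s => y i)
  rw [Finset.sum_coe_sort s (fun i => x i * star (y i)),
    Finset.sum_coe_sort s (fun i => x i * star (x i)),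
    Finset.sum_coe_sort s (fun i => y i * star (y i))] at h
  exact h

theorem cs_col {κ : Type} (s : Finset κ) (x y : κ → U) :
    ‖∑ i ∈ s, x i * y i‖ ^ 2 ≤
      ‖∑ i ∈ s, x i * star (x i)‖ * ‖∑ i ∈ s, star (y i) * y i‖ := by
  have h := cs_row s x (fun i => star (y i))
  simpa only [star_star] using h

/-- conjugation of a positive element by a row -/
theorem conj_row_le {κ : Type} (s : Finset κ) (x : κ → U) {P : U} (hP : 0 ≤ P) :
    ‖∑ i ∈ s, x i * P * star (x i)‖ ≤ ‖P‖ * ‖∑ i ∈ s, x i * star (x i)‖ := by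
  have h1 : ∀ i, x i * P * star (x i) ≤ ‖P‖ • (x i * star (x i)) := fun i =>
    CStarAlgebra.star_right_conjugate_le_norm_smul hP.isSelfAdjoint
  have h0 : 0 ≤ ∑ i ∈ s, x i * P * star (x i) :=
    sum_nonneg fun i _ => star_right_conjugate_nonneg hP (x i)
  calc ‖∑ i ∈ s, x i * P * star (x i)‖ ≤ ‖∑ i ∈ s, ‖P‖ • (x i * star (x i))‖ :=
        CStarAlgebra.norm_le_norm_of_nonneg_of_le h0 (sum_le_sum fun i _ => h1 i)
    _ = ‖P‖ * ‖∑ i ∈ s, x i * star (x i)‖ := by
        rw [← smul_sum, norm_smul, Real.norm_of_nonneg (norm_nonneg _)]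

theorem row_nonneg {κ : Type} (s : Finset κ) (x : κ → U) : 0 ≤ ∑ i ∈ s, x i * star (x i) :=
  sum_nonneg fun i _ => mul_star_self_nonneg (x i)

/-- conjugation by a row with coefficients -/
theorem conj_coeff_le {κ : Type} (s : Finset κ) (x c : κ → U) {M : ℝ} (hc : ∀ i ∈ s, ‖c i‖ ≤ M) :
    ‖∑ i ∈ s, (x i * star (c i)) * star (x i * star (c i))‖ ≤
      M ^ 2 * ‖∑ i ∈ s, x i * star (x i)‖ := by
  rcases s.eq_empty_or_nonempty with hs | ⟨a0, ha0⟩
  · subst hs
    simp
  have hM : 0 ≤ M := (norm_nonneg _).trans (hc a0 ha0)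
  have h0 : 0 ≤ ∑ i ∈ s, (x i * star (c i)) * star (x i * star (c i)) :=
    row_nonneg s fun i => x i * star (c i)
  have h1 : ∑ i ∈ s, (x i * star (c i)) * star (x i * star (c i)) ≤
      (M ^ 2) • ∑ i ∈ s, x i * star (x i) := by
    rw [smul_sum]
    refine sum_le_sum fun i hi => ?_
    have e : (x i * star (c i)) * star (x i * star (c i)) =
        x i * (star (c i) * c i) * star (x i) := by
      rw [star_mul, star_star]
      simp only [mul_assoc]
    rw [e]
    have h2 : x i * (star (c i) * c i) * star (x i) ≤ ‖star (c i) * c i‖ • (x i * star (x i)) :=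
      CStarAlgebra.star_right_conjugate_le_norm_smul (IsSelfAdjoint.star_mul_self (c i))
    refine h2.trans ?_
    refine smul_le_smul_of_nonneg_right ?_ (mul_star_self_nonneg (x i))
    rw [CStarRing.norm_star_mul_self]
    have := hc i hi
    have := norm_nonneg (c i)
    nlinarith
  calc _ ≤ ‖(M ^ 2) • ∑ i ∈ s, x i * star (x i)‖ :=
        CStarAlgebra.norm_le_norm_of_nonneg_of_le h0 h1
    _ = _ := by rw [norm_smul, Real.norm_of_nonneg (by positivity)]

/-- **Row bound.** -/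
theorem row_bound {κ : Type} [DecidableEq κ] (s : Finset κ) (u : κ → U) (Z : κ → κ → U)
    (p : κ → U) {r M : ℝ} (hr : r < 1) (hM : 0 ≤ M) (hZ : ∀ a ∈ s, ∀ b ∈ s, ‖Z a b‖ ≤ r)
    (hp : ∀ a ∈ s, ‖p a‖ ≤ M)
    (hu : ∀ a ∈ s, ∀ b ∈ s, star (u a) * u b =
      u b * Z a b * star (u a) + (if a = b then (1 : ℂ) else 0) • p a) :
    ‖∑ b ∈ s, u b * star (u b)‖ ≤ M / (1 - r) := by
  have h1r : 0 < 1 - r := by linarith
  rcases s.eq_empty_or_nonempty with hs | ⟨a0, ha0⟩
  · subst hs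
    simp only [sum_empty, norm_zero]
    positivity
  have hr0 : 0 ≤ r := (norm_nonneg _).trans (hZ a0 ha0 a0 ha0)
  set P : U := ∑ b ∈ s, u b * star (u b) with hP
  have hP0 : 0 ≤ P := row_nonneg s u
  have hPs : star P = P := hP0.isSelfAdjoint.star_eq
  set x : κ × κ → U := fun t => u t.1 * u t.2 with hx
  set v : κ × κ → U := fun t => u t.2 * u t.1 with hv
  set y : κ × κ → U := fun t => v t * star (Z t.1 t.2) with hy
  set w : κ → U := fun a => u a * star (p a) with hw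
  have hPP : P * P = (∑ a ∈ s, u a * star (w a)) + ∑ t ∈ s ×ˢ s, x t * star (y t) := by
    have e1 : P * P = ∑ a ∈ s, ∑ b ∈ s, u a * (star (u a) * u b) * star (u b) := by
      rw [hP, sum_mul_sum]
      refine sum_congr rfl fun a _ => sum_congr rfl fun b _ => ?_
      simp only [mul_assoc]
    have e2 : ∀ a ∈ s, ∑ b ∈ s, u a * (star (u a) * u b) * star (u b) =
        (∑ b ∈ s, x (a, b) * star (y (a, b))) + u a * star (w a) := by
      intro a ha
      have : ∀ b ∈ s, u a * (star (u a) * u b) * star (u b) =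
          x (a, b) * star (y (a, b)) + (if a = b then u a * star (w b) else 0) := by
        intro b hb
        rw [hu a ha b hb]
        simp only [hx, hy, hv, hw, star_star, star_mul]
        rw [mul_add, add_mul]
        congr 1
        · simp only [mul_assoc]
        · split_ifs with h
          · subst h
            simp only [one_smul, mul_assoc]
          · simp
      rw [sum_congr rfl this, sum_add_distrib, sum_ite_eq s a, if_pos ha]
    rw [e1, sum_congr rfl e2, sum_add_distrib, sum_product, add_comm]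
  have hxx : ‖∑ t ∈ s ×ˢ s, x t * star (x t)‖ ≤ ‖P‖ * ‖P‖ := by
    have e : ∑ t ∈ s ×ˢ s, x t * star (x t) = ∑ a ∈ s, u a * P * star (u a) := by
      rw [sum_product]
      refine sum_congr rfl fun a _ => ?_
      rw [hP, mul_sum, sum_mul]
      refine sum_congr rfl fun b _ => ?_
      simp only [hx, star_mul, mul_assoc]
    rw [e]
    exact conj_row_le s u hP0
  have hvv : ‖∑ t ∈ s ×ˢ s, v t * star (v t)‖ ≤ ‖P‖ * ‖P‖ := by
    have e : ∑ t ∈ s ×ˢ s, v t * star (v t) = ∑ a ∈ s, u a * P * star (u a) := by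
      rw [sum_product_right]
      refine sum_congr rfl fun a _ => ?_
      rw [hP, mul_sum, sum_mul]
      refine sum_congr rfl fun b _ => ?_
      simp only [hv, star_mul, mul_assoc]
    rw [e]
    exact conj_row_le s u hP0
  have hyy : ‖∑ t ∈ s ×ˢ s, y t * star (y t)‖ ≤ r ^ 2 * (‖P‖ * ‖P‖) := by
    refine (conj_coeff_le (s ×ˢ s) v (fun t => Z t.1 t.2) (M := r) fun t ht => ?_).trans ?_
    · rw [mem_product] at ht
      exact hZ _ ht.1 _ ht.2
    · gcongr
  have hww : ‖∑ a ∈ s, w a * star (w a)‖ ≤ M ^ 2 * ‖P‖ := conj_coeff_le s u p hp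
  have hX : ‖∑ t ∈ s ×ˢ s, x t * star (y t)‖ ≤ r * ‖P‖ ^ 2 := by
    have h := cs_row (s ×ˢ s) x y
    have h' : ‖∑ t ∈ s ×ˢ s, x t * star (y t)‖ ^ 2 ≤ (r * ‖P‖ ^ 2) ^ 2 := by
      calc _ ≤ _ := h
        _ ≤ (‖P‖ * ‖P‖) * (r ^ 2 * (‖P‖ * ‖P‖)) := by gcongr
        _ = _ := by ring
    exact le_of_sq_le_sq h' (by positivity)
  have hY : ‖∑ a ∈ s, u a * star (w a)‖ ≤ M * ‖P‖ := by
    have h := cs_row s u w
    have h' : ‖∑ a ∈ s, u a * star (w a)‖ ^ 2 ≤ (M * ‖P‖) ^ 2 := by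
      calc _ ≤ _ := h
        _ ≤ ‖P‖ * (M ^ 2 * ‖P‖) := by gcongr
        _ = _ := by ring
    exact le_of_sq_le_sq h' (by positivity)
  have hfin : ‖P‖ ^ 2 ≤ M * ‖P‖ + r * ‖P‖ ^ 2 := by
    have e : ‖P * P‖ = ‖P‖ ^ 2 := by
      have := CStarRing.norm_star_mul_self (x := P)
      rw [hPs] at this
      rw [this, sq]
    calc ‖P‖ ^ 2 = ‖P * P‖ := e.symm
      _ ≤ ‖∑ a ∈ s, u a * star (w a)‖ + ‖∑ t ∈ s ×ˢ s, x t * star (y t)‖ := by
        rw [hPP]; exact norm_add_le _ _
      _ ≤ _ := add_le_add hY hX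
  rw [le_div_iff₀ h1r]
  rcases eq_or_lt_of_le (norm_nonneg P) with h | h
  · rw [← h]; simpa using hM
  · have h3 : ‖P‖ * (‖P‖ * (1 - r)) ≤ ‖P‖ * M := by nlinarith
    exact le_of_mul_le_mul_left h3 h

end order

end Pool.Agent.E8helper68.QF
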