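import Pool.Agent.E8helper68.QF.Letter

/-! Words in creation and annihilation operators around a coefficient. -/

set_option autoImplicit false

open Finset

namespace Pool.Agent.E8helper68.QF

open Pool.Agent.Helper188.NCM Pool.Agent.H398R3.NCM

variable {U H ι : Type} [CStarAlgebra U] [NormedAddCommGroup H] [InnerProductSpace ℂ H]

/-- sums of the orbit of `x` are controlled by those of finitely many elements of `A` -/
def Tr (γ : U → U) (A : Set U) (x : U) : Prop :=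
  ∃ F : Finset U, (∀ a ∈ F, a ∈ A) ∧ ∃ C : ℝ, 0 ≤ C ∧
    ∀ (N : ℕ) (c : ℕ → ℂ) (B : ℝ), 0 ≤ B → (∀ a ∈ F, Bd γ N c a B) → Bd γ N c x (C * B)

theorem Bd.mono {γ : U → U} {N : ℕ} {c : ℕ → ℂ} {x : U} {B B' : ℝ} (h : Bd γ N c x B)
    (hB : B ≤ B') : Bd γ N c x B' := fun θ => (h θ).trans hB

theorem Tr.of_mem (γ : U → U) {A : Set U} {a : U} (ha : a ∈ A) : Tr γ A a := by
  classical
  exact ⟨{a}, by simp [ha], 1, zero_le_one, fun N c B _ h => by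
    rw [one_mul]; exact h a (by simp)⟩

theorem Tr.zero (γ : U →⋆ₐ[ℂ] U) (A : Set U) : Tr γ A 0 := by
  refine ⟨∅, by simp, 0, le_rfl, fun N c B _ _ θ => ?_⟩
  have : ∀ n : ℕ, (⇑γ)^[n] (0 : U) = 0 := by
    intro n
    have := (iter_hom γ n).2.2.2 0 0
    simpa using this
  simp [this]

theorem Tr.add {γ : U →⋆ₐ[ℂ] U} {A : Set U} {x y : U} (hx : Tr γ A x) (hy : Tr γ A y) :
    Tr γ A (x + y) := by
  classical
  obtain ⟨F, hF, C, hC, h⟩ := hx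
  obtain ⟨F', hF', C', hC', h'⟩ := hy
  refine ⟨F ∪ F', fun a ha => ?_, C + C', by positivity, fun N c B hB0 hB θ => ?_⟩
  · rcases mem_union.1 ha with ha | ha
    · exact hF a ha
    · exact hF' a ha
  · have h1 := h N c B hB0 (fun a ha => hB a (mem_union_left _ ha)) θ
    have h2 := h' N c B hB0 (fun a ha => hB a (mem_union_right _ ha)) θ
    have e : ∑ n ∈ range N, (c n * ee (θ * n)) • (⇑γ)^[n] (x + y) =
        (∑ n ∈ range N, (c n * ee (θ * n)) • (⇑γ)^[n] x) +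
        ∑ n ∈ range N, (c n * ee (θ * n)) • (⇑γ)^[n] y := by
      rw [← sum_add_distrib]
      exact sum_congr rfl fun n _ => by rw [(iter_hom γ n).2.2.1, smul_add]
    rw [e, add_mul]
    exact (norm_add_le _ _).trans (add_le_add h1 h2)

theorem Tr.smul {γ : U →⋆ₐ[ℂ] U} {A : Set U} (k : ℂ) {x : U} (hx : Tr γ A x) :
    Tr γ A (k • x) := by
  obtain ⟨F, hF, C, hC, h⟩ := hx
  refine ⟨F, hF, ‖k‖ * C, by positivity, fun N c B hB0 hB θ => ?_⟩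
  have h1 := h N c B hB0 hB θ
  have e : ∑ n ∈ range N, (c n * ee (θ * n)) • (⇑γ)^[n] (k • x) =
      k • ∑ n ∈ range N, (c n * ee (θ * n)) • (⇑γ)^[n] x := by
    rw [smul_sum]
    exact sum_congr rfl fun n _ => by rw [(iter_hom γ n).2.2.2, smul_comm]
  rw [e, norm_smul, mul_assoc]
  exact mul_le_mul_of_nonneg_left h1 (norm_nonneg _)

theorem Tr.span {γ : U →⋆ₐ[ℂ] U} {A : Set U} {S : Set U} (hS : ∀ x ∈ S, Tr γ A x) :
    ∀ x ∈ Submodule.span ℂ S, Tr γ A x := by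
  intro x hx
  induction hx using Submodule.span_induction with
  | mem x hx => exact hS x hx
  | zero => exact Tr.zero γ A
  | add x y _ _ hx hy => exact hx.add hy
  | smul c x _ hx => exact hx.smul c

theorem Bd.star {γ : U →⋆ₐ[ℂ] U} {N : ℕ} {c : ℕ → ℂ} {x : U} {B : ℝ} (h : Bd γ N c x B) :
    Bd γ N (fun n => star (c n)) (star x) B := by
  intro θ
  refine le_trans (le_of_eq ?_) (h (-θ))
  rw [← norm_star]
  congr 1
  rw [star_sum]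
  refine sum_congr rfl fun n _ => ?_
  rw [star_smul, (iter_hom γ n).2.1, star_star, star_mul', star_star, star_ee]
  congr 3
  ring

theorem bd_star_iff {γ : U →⋆ₐ[ℂ] U} {N : ℕ} {c : ℕ → ℂ} {x : U} {B : ℝ}
    (h : Bd γ N (fun n => star (c n)) (star x) B) : Bd γ N c x B := by
  have := h.star
  simpa only [star_star] using this

theorem bd_right {s : H →ₗ[ℂ] U} {K : ι → Submodule ℂ H} {z : ι → ι → U} {p : ι → U}
    (h : Rel s K z p) (γ : U →⋆ₐ[ℂ] U) (π : ι → ι) (V : H →ₗᵢ[ℂ] H)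
    (hV : ∀ i, ∀ ξ ∈ K i, V ξ ∈ K (π i) ∧ γ (s ξ) = s (V ξ)) {i : ι} {r M : ℝ} (hr : r < 1)
    (hq : ∀ m n : ℕ, ‖z (π^[m] i) (π^[n] i)‖ ≤ r ∧ ‖p (π^[n] i)‖ ≤ M) {ξ : H} (hξ : ξ ∈ K i) :
    ∃ C : ℝ, 0 ≤ C ∧ ∀ (x : U) (N : ℕ) (c : ℕ → ℂ) (B : ℝ), Bd γ N c x B →
      Bd γ N c (x * star (s ξ)) (C * B) := by
  obtain ⟨C, hC, h1⟩ := bd_left h γ π V hV hr hq hξ
  refine ⟨C, hC, fun x N c B hB => bd_star_iff ?_⟩
  rw [star_mul, star_star]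
  exact h1 _ _ _ _ hB.star

/-- words -/
inductive Wd (s : H →ₗ[ℂ] U) (K : ι → Submodule ℂ H) (A : Set U) : U → Prop
  | base (a : U) (ha : a ∈ A) : Wd s K A a
  | left (i : ι) (ξ : H) (hξ : ξ ∈ K i) (x : U) (hx : Wd s K A x) : Wd s K A (s ξ * x)
  | right (i : ι) (ξ : H) (hξ : ξ ∈ K i) (x : U) (hx : Wd s K A x) : Wd s K A (x * star (s ξ))

theorem tr_word {s : H →ₗ[ℂ] U} {K : ι → Submodule ℂ H} {z : ι → ι → U} {p : ι → U}
    (h : Rel s K z p) (γ : U →⋆ₐ[ℂ] U) (π : ι → ι) (V : H →ₗᵢ[ℂ] H)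
    (hV : ∀ i, ∀ ξ ∈ K i, V ξ ∈ K (π i) ∧ γ (s ξ) = s (V ξ))
    (hr : ∀ i, ∃ r M : ℝ, r < 1 ∧ ∀ m n : ℕ, ‖z (π^[m] i) (π^[n] i)‖ ≤ r ∧ ‖p (π^[n] i)‖ ≤ M)
    {A : Set U} {x : U} (hx : Wd s K A x) : Tr γ A x := by
  induction hx with
  | base a ha => exact Tr.of_mem γ ha
  | left i ξ hξ x _ ih =>
    obtain ⟨r, M, hr1, hr2⟩ := hr i
    obtain ⟨C, hC, h1⟩ := bd_left h γ π V hV hr1 hr2 hξ
    obtain ⟨F, hF, C', hC', h2⟩ := ih
    exact ⟨F, hF, C * C', by positivity, fun N c B hB0 hB => by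
      rw [mul_assoc]; exact h1 _ _ _ _ (h2 N c B hB0 hB)⟩
  | right i ξ hξ x _ ih =>
    obtain ⟨r, M, hr1, hr2⟩ := hr i
    obtain ⟨C, hC, h1⟩ := bd_right h γ π V hV hr1 hr2 hξ
    obtain ⟨F, hF, C', hC', h2⟩ := ih
    exact ⟨F, hF, C * C', by positivity, fun N c B hB0 hB => by
      rw [mul_assoc]; exact h1 _ _ _ _ (h2 N c B hB0 hB)⟩

section wick

variable {s : H →ₗ[ℂ] U} {K : ι → Submodule ℂ H} {z : ι → ι → U} {p : ι → U}
  {𝒜 : StarSubalgebra ℂ U}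

/-- the span of the words -/
noncomputable def WS (s : H →ₗ[ℂ] U) (K : ι → Submodule ℂ H) (𝒜 : StarSubalgebra ℂ U) : Submodule ℂ U :=
  Submodule.span ℂ {x | Wd s K (𝒜 : Set U) x}

theorem span_map {S : Set U} {f : U →ₗ[ℂ] U} {T : Submodule ℂ U} (h : ∀ x ∈ S, f x ∈ T) :
    ∀ x ∈ Submodule.span ℂ S, f x ∈ T := by
  intro x hx
  induction hx using Submodule.span_induction with
  | mem x hx => exact h x hx
  | zero => rw [map_zero]; exact T.zero_mem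
  | add x y _ _ hx hy => rw [map_add]; exact T.add_mem hx hy
  | smul c x _ hx => rw [map_smul]; exact T.smul_mem c hx

theorem WS_left {i : ι} {ξ : H} (hξ : ξ ∈ K i) : ∀ x ∈ WS s K 𝒜, s ξ * x ∈ WS s K 𝒜 :=
  span_map (f := LinearMap.mulLeft ℂ (s ξ)) fun x hx =>
    Submodule.subset_span (Wd.left i ξ hξ x hx)

theorem WS_right {i : ι} {ξ : H} (hξ : ξ ∈ K i) : ∀ x ∈ WS s K 𝒜, x * star (s ξ) ∈ WS s K 𝒜 :=
  span_map (f := LinearMap.mulRight ℂ (star (s ξ))) fun x hx =>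
    Submodule.subset_span (Wd.right i ξ hξ x hx)

theorem WS_coeff (hA : ∀ a ∈ 𝒜, ∀ i, ∀ ξ ∈ K i,
    a * s ξ ∈ Submodule.span ℂ {x | ∃ j, ∃ ζ ∈ K j, ∃ b ∈ 𝒜, x = s ζ * b}) {w : U}
    (hw : Wd s K (𝒜 : Set U) w) : ∀ a ∈ 𝒜, a * w ∈ WS s K 𝒜 := by
  induction hw with
  | base b hb => intro a ha; exact Submodule.subset_span (Wd.base _ (mul_mem ha hb))
  | left i ξ hξ x _ ih =>
    intro a ha
    rw [← mul_assoc]
    refine span_map (f := LinearMap.mulRight ℂ x) (T := WS s K 𝒜) ?_ _ (hA a ha i ξ hξ)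
    rintro _ ⟨j, ζ, hζ, b, hb, rfl⟩
    rw [LinearMap.mulRight_apply, mul_assoc]
    exact WS_left hζ _ (ih b hb)
  | right i ξ hξ x _ ih =>
    intro a ha
    rw [← mul_assoc]
    exact WS_right hξ _ (ih a ha)

theorem WS_ann (h : Rel s K z p) (hz : ∀ i j, z i j ∈ 𝒜) (hp : ∀ i, p i ∈ 𝒜) (hA : ∀ a ∈ 𝒜, ∀ i, ∀ ξ ∈ K i,
    a * s ξ ∈ Submodule.span ℂ {x | ∃ j, ∃ ζ ∈ K j, ∃ b ∈ 𝒜, x = s ζ * b}) {i : ι} {η : H}
    (hη : η ∈ K i) {w : U} (hw : Wd s K (𝒜 : Set U) w) : star (s η) * w ∈ WS s K 𝒜 := by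
  induction hw with
  | base b hb =>
    have h1 := hA (star b) (star_mem hb) i η hη
    have h2 : ∀ y ∈ Submodule.span ℂ {x | ∃ j, ∃ ζ ∈ K j, ∃ b ∈ 𝒜, x = s ζ * b},
        star y ∈ WS s K 𝒜 := by
      intro y hy
      induction hy using Submodule.span_induction with
      | mem y hy =>
        obtain ⟨j, ζ, hζ, b, hb, rfl⟩ := hy
        rw [star_mul]
        exact Submodule.subset_span (Wd.right j ζ hζ _ (Wd.base _ (star_mem hb)))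
      | zero => rw [star_zero]; exact Submodule.zero_mem _
      | add x y _ _ hx hy => rw [star_add]; exact Submodule.add_mem _ hx hy
      | smul c x _ hx => rw [star_smul]; exact Submodule.smul_mem _ _ hx
    have h3 := h2 _ h1
    rwa [star_mul, star_star] at h3
  | left j ξ hξ x hx ih =>
    rw [← mul_assoc, h.comm i j η hη ξ hξ, add_mul, smul_mul_assoc, mul_assoc, mul_assoc]
    refine Submodule.add_mem _ (WS_left hξ _ ?_) (Submodule.smul_mem _ _ (WS_coeff hA hx _ (hp i)))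
    exact span_map (f := LinearMap.mulLeft ℂ (z i j)) (T := WS s K 𝒜)
      (fun y hy => WS_coeff hA hy _ (hz i j)) _ ih
  | right j ξ hξ x _ ih =>
    rw [← mul_assoc]
    exact WS_right hξ _ ih

theorem adjoin_le_WS (h : Rel s K z p) (hz : ∀ i j, z i j ∈ 𝒜) (hp : ∀ i, p i ∈ 𝒜) (hA : ∀ a ∈ 𝒜, ∀ i, ∀ ξ ∈ K i,
    a * s ξ ∈ Submodule.span ℂ {x | ∃ j, ∃ ζ ∈ K j, ∃ b ∈ 𝒜, x = s ζ * b}) {x : U}
    (hx : x ∈ StarAlgebra.adjoin ℂ ((𝒜 : Set U) ∪ {x | ∃ i, ∃ ξ ∈ K i, x = s ξ})) :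
    x ∈ WS s K 𝒜 := by
  set G : Set U := (𝒜 : Set U) ∪ {x | ∃ i, ∃ ξ ∈ K i, x = s ξ} with hG
  have hgen : ∀ g ∈ G, (∀ y ∈ WS s K 𝒜, g * y ∈ WS s K 𝒜) ∧
      (∀ y ∈ WS s K 𝒜, star g * y ∈ WS s K 𝒜) := by
    rintro g (hg | ⟨i, ξ, hξ, rfl⟩)
    · exact ⟨span_map (f := LinearMap.mulLeft ℂ g) fun y hy => WS_coeff hA hy g hg,
        span_map (f := LinearMap.mulLeft ℂ (star g)) fun y hy => WS_coeff hA hy _ (star_mem hg)⟩
    · exact ⟨WS_left hξ, span_map (f := LinearMap.mulLeft ℂ (star (s ξ))) fun y hy =>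
        WS_ann h hz hp hA hξ hy⟩
  let L : Subalgebra ℂ U :=
    { carrier := {g | ∀ y ∈ WS s K 𝒜, g * y ∈ WS s K 𝒜}
      mul_mem' := by
        intro a b ha hb y hy
        rw [mul_assoc]
        exact ha _ (hb y hy)
      add_mem' := by
        intro a b ha hb y hy
        rw [add_mul]
        exact Submodule.add_mem _ (ha y hy) (hb y hy)
      algebraMap_mem' := by
        intro c y hy
        rw [Algebra.algebraMap_eq_smul_one, smul_mul_assoc, one_mul]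
        exact Submodule.smul_mem _ _ hy }
  have hle : Algebra.adjoin ℂ (G ∪ star G) ≤ L := by
    refine Algebra.adjoin_le ?_
    rintro g (hg | hg)
    · exact (hgen g hg).1
    · intro y hy
      have := (hgen (star g) hg).2 y hy
      rwa [star_star] at this
  have hx' : x ∈ Algebra.adjoin ℂ (G ∪ star G) := hx
  have h1 : (1 : U) ∈ WS s K 𝒜 := Submodule.subset_span (Wd.base _ (one_mem 𝒜))
  have := hle hx' 1 h1
  rwa [mul_one] at this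

end wick

/-- **Transfer.** -/
theorem transfer {s : H →ₗ[ℂ] U} {K : ι → Submodule ℂ H} {z : ι → ι → U} {p : ι → U}
    (h : Rel s K z p) (γ : U →⋆ₐ[ℂ] U) (π : ι → ι) (V : H →ₗᵢ[ℂ] H)
    (hV : ∀ i, ∀ ξ ∈ K i, V ξ ∈ K (π i) ∧ γ (s ξ) = s (V ξ))
    (hr : ∀ i, ∃ r M : ℝ, r < 1 ∧ ∀ m n : ℕ, ‖z (π^[m] i) (π^[n] i)‖ ≤ r ∧ ‖p (π^[n] i)‖ ≤ M)
    (𝒜 : StarSubalgebra ℂ U) (hz : ∀ i j, z i j ∈ 𝒜) (hp : ∀ i, p i ∈ 𝒜)
    (hA : ∀ a ∈ 𝒜, ∀ i, ∀ ξ ∈ K i,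
      a * s ξ ∈ Submodule.span ℂ {x | ∃ j, ∃ ζ ∈ K j, ∃ b ∈ 𝒜, x = s ζ * b}) {x : U}
    (hx : x ∈ StarAlgebra.adjoin ℂ ((𝒜 : Set U) ∪ {x | ∃ i, ∃ ξ ∈ K i, x = s ξ})) :
    Tr γ (𝒜 : Set U) x :=
  Tr.span (fun _ hw => tr_word h γ π V hV hr hw) x (adjoin_le_WS h hz hp hA hx)

end Pool.Agent.E8helper68.QF
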